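import Mathlib

set_option autoImplicit false

namespace Pool.Agent.Results.MP_dd6e79_al.NoOscillation

/-- A semigroup is finitely presented when it is isomorphic to the quotient of a free semigroup on
finitely many generators by the congruence generated by finitely many pairs. -/
def IsFinPres (S : Type) [Semigroup S] : Prop :=
  ∃ (n : ℕ) (R : Finset (FreeSemigroup (Fin n) × FreeSemigroup (Fin n))),
    Nonempty (S ≃* (conGen (fun u v => (u, v) ∈ R)).Quotient)

/-- The elements of `S` that are products of at least one and at most `n` elements of `Y`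
(the product is computed in `S` with an identity adjoined; the empty product is not in `S`). -/
def ball {S : Type} [Semigroup S] (Y : Set S) (n : ℕ) : Set S :=
  {s | ∃ l : List S, l.length ≤ n ∧ (∀ y ∈ l, y ∈ Y) ∧
    (l.map (fun y : S => (y : WithOne S))).prod = (s : WithOne S)}

/-- The growth function of `S` with respect to `Y`. -/
noncomputable def growth {S : Type} [Semigroup S] (Y : Set S) (n : ℕ) : ℕ := (ball Y n).ncard

/-- `f ⪯ g`. -/
def Dom (f g : ℕ → ℕ) : Prop := ∃ C : ℕ, 1 ≤ C ∧ ∀ n, f n ≤ C * g (C * n)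

section general

variable {S : Type} [Semigroup S]

def ball1 (Y : Set S) (n : ℕ) : Set (WithOne S) :=
  {w | ∃ l : List S, l.length ≤ n ∧ (∀ y ∈ l, y ∈ Y) ∧
    (l.map (fun y : S => (y : WithOne S))).prod = w}

open Pointwise

lemma ball1_add (Y : Set S) (n m : ℕ) : ball1 Y (n + m) ⊆ ball1 Y n * ball1 Y m := by
  rintro w ⟨l, hl, hY, rfl⟩
  refine ⟨_, ⟨l.take n, ?_, ?_, rfl⟩, _, ⟨l.drop n, ?_, ?_, rfl⟩, ?_⟩
  · rw [List.length_take]; omega
  · intro y hy; exact hY y (List.mem_of_mem_take hy)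
  · rw [List.length_drop]; omega
  · intro y hy; exact hY y (List.mem_of_mem_drop hy)
  · change (List.map _ _).prod * (List.map _ _).prod = _
    rw [← List.prod_append, ← List.map_append, List.take_append_drop]

lemma ball1_one (Y : Set S) : ball1 Y 1 ⊆ insert 1 ((fun y : S => (y : WithOne S)) '' Y) := by
  rintro w ⟨l, hl, hY, rfl⟩
  match l, hl, hY with
  | [], _, _ => left; rfl
  | [y], _, hY =>
    right
    exact ⟨y, hY y (by simp), by simp⟩

lemma ball1_zero (Y : Set S) : ball1 Y 0 ⊆ {1} := by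
  rintro w ⟨l, hl, hY, rfl⟩
  have : l = [] := List.eq_nil_of_length_eq_zero (by omega)
  subst this
  rfl

lemma ball1_finite (Y : Set S) (hY : Y.Finite) (n : ℕ) : (ball1 Y n).Finite := by
  induction n with
  | zero => exact (Set.finite_singleton _).subset (ball1_zero Y)
  | succ n ih =>
    have h1 : (ball1 Y 1).Finite := ((hY.image _).insert 1).subset (ball1_one Y)
    exact (ih.mul h1).subset (ball1_add Y n 1)

lemma ball1_mono (Y : Set S) {n m : ℕ} (h : n ≤ m) : ball1 Y n ⊆ ball1 Y m := by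
  rintro w ⟨l, hl, hY, rfl⟩
  exact ⟨l, hl.trans h, hY, rfl⟩

lemma ball1_eq (Y : Set S) (n : ℕ) :
    ball1 Y n = insert 1 ((fun y : S => (y : WithOne S)) '' ball Y n) := by
  ext w
  constructor
  · rintro ⟨l, hl, hY, rfl⟩
    rcases hw : (l.map (fun y : S => (y : WithOne S))).prod with _ | s
    · left; rfl
    · right; exact ⟨s, ⟨l, hl, hY, hw⟩, rfl⟩
  · rintro (rfl | ⟨s, ⟨l, hl, hY, hs⟩, rfl⟩)
    · exact ⟨[], by simp, by simp, by simp⟩
    · exact ⟨l, hl, hY, hs⟩

lemma ball_finite (Y : Set S) (hY : Y.Finite) (n : ℕ) : (ball Y n).Finite := by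
  have h := ball1_finite Y hY n
  rw [ball1_eq] at h
  have h2 := h.subset (Set.subset_insert _ _)
  exact h2.of_finite_image (fun a _ b _ hab => WithOne.coe_injective hab)

lemma ncard_ball1 (Y : Set S) (hY : Y.Finite) (n : ℕ) : (ball1 Y n).ncard = growth Y n + 1 := by
  rw [ball1_eq, Set.ncard_insert_of_notMem _ ((ball_finite Y hY n).image _),
    Set.ncard_image_of_injective _ (fun a b h => WithOne.coe_injective h)]
  · rfl
  · rintro ⟨s, _, hs⟩
    exact WithOne.coe_ne_one hs

lemma submul (Y : Set S) (hY : Y.Finite) (n m : ℕ) :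
    growth Y (n + m) + 1 ≤ (growth Y n + 1) * (growth Y m + 1) := by
  rw [← ncard_ball1 Y hY, ← ncard_ball1 Y hY, ← ncard_ball1 Y hY]
  have h1 : (ball1 Y (n + m)).ncard ≤ (ball1 Y n * ball1 Y m).ncard :=
    Set.ncard_le_ncard (ball1_add Y n m) ((ball1_finite Y hY n).mul (ball1_finite Y hY m))
  refine h1.trans ?_
  rw [← Set.image_mul_prod, ← Set.ncard_prod]
  exact Set.ncard_image_le ((ball1_finite Y hY n).prod (ball1_finite Y hY m))

lemma growth_mono (Y : Set S) (hY : Y.Finite) : Monotone (growth Y) := by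
  intro n m h
  apply Set.ncard_le_ncard _ (ball_finite Y hY m)
  rintro w ⟨l, hl, hY, hw⟩
  exact ⟨l, hl.trans h, hY, hw⟩

lemma submul_pow (Y : Set S) (hY : Y.Finite) (n q : ℕ) :
    growth Y (q * n) + 1 ≤ (growth Y n + 1) ^ q := by
  induction q with
  | zero =>
    have h0 : growth Y 0 = 0 := by
      have : ball Y 0 = ∅ := by
        rw [Set.eq_empty_iff_forall_notMem]
        rintro s ⟨l, hl, _, hs⟩
        have : l = [] := List.eq_nil_of_length_eq_zero (by omega)
        subst this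
        exact WithOne.coe_ne_one hs.symm
      unfold growth
      rw [this, Set.ncard_empty]
    simp [h0]
  | succ q ih =>
    rw [Nat.succ_mul, pow_succ]
    exact (submul Y hY _ _).trans (Nat.mul_le_mul_right _ ih)

lemma exp_beats (k : ℕ) : ∃ N : ℕ, ∀ n, N ≤ n → n ^ k ≤ 2 ^ n := by
  have h := tendsto_pow_const_div_const_pow_of_one_lt k (r := (2 : ℝ)) (by norm_num)
  have h2 := h.eventually (gt_mem_nhds (show (0 : ℝ) < 1 by norm_num))
  obtain ⟨N, hN⟩ := Filter.eventually_atTop.mp h2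
  refine ⟨N, fun n hn => ?_⟩
  have h3 := hN n hn
  have h4 : (0 : ℝ) < 2 ^ n := by positivity
  rw [div_lt_one h4] at h3
  exact_mod_cast h3.le

/-- a function is subexponential -/
def SubExp (γ : ℕ → ℕ) : Prop := ∀ K : ℕ, ∃ N : ℕ, ∀ n, N ≤ n → (γ n) ^ K ≤ 2 ^ n

lemma subexp_of_small (Y : Set S) (hY : Y.Finite)
    (h : ∀ N, ∃ n, N ≤ n ∧ growth Y n < n ^ 3) : SubExp (growth Y) := by
  intro K
  obtain ⟨N0, hN0⟩ := exp_beats (6 * K)
  obtain ⟨n0, hn0, hg⟩ := h (N0 + 1)
  refine ⟨n0, fun n hn => ?_⟩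
  have hpos : 0 < n0 := by omega
  set q := n / n0 with hq
  have hq1 : 1 ≤ q := (Nat.one_le_div_iff hpos).mpr hn
  have hlt : n < (q + 1) * n0 := by
    have := Nat.lt_mul_div_succ n hpos
    rw [mul_comm]; exact this
  have h1 : growth Y n ≤ growth Y ((q + 1) * n0) := growth_mono Y hY hlt.le
  have h2 := submul_pow Y hY n0 (q + 1)
  have h3 : growth Y n0 + 1 ≤ n0 ^ 3 := hg
  have h4 : growth Y n ≤ (n0 ^ 3) ^ (2 * q) := by
    calc growth Y n ≤ growth Y ((q + 1) * n0) + 1 := by omega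
      _ ≤ (growth Y n0 + 1) ^ (q + 1) := h2
      _ ≤ (n0 ^ 3) ^ (q + 1) := Nat.pow_le_pow_left h3 _
      _ ≤ (n0 ^ 3) ^ (2 * q) := Nat.pow_le_pow_right (by positivity) (by omega)
  calc (growth Y n) ^ K ≤ ((n0 ^ 3) ^ (2 * q)) ^ K := Nat.pow_le_pow_left h4 _
    _ = (n0 ^ (6 * K)) ^ q := by
      rw [← pow_mul, ← pow_mul, ← pow_mul]; congr 1; ring
    _ ≤ (2 ^ n0) ^ q := Nat.pow_le_pow_left (hN0 n0 (by omega)) _
    _ = 2 ^ (n0 * q) := by rw [← pow_mul]
    _ ≤ 2 ^ n := Nat.pow_le_pow_right (by norm_num) (Nat.mul_div_le n n0)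

end general

/-! ### Countability -/

section countable

lemma ball_iso {S T : Type} [Semigroup S] [Semigroup T] (e : S ≃* T) (Y : Set S) (n : ℕ) (s : S)
    (h : s ∈ ball Y n) : e s ∈ ball (e '' Y) n := by
  obtain ⟨l, hl, hY, hs⟩ := h
  refine ⟨l.map e, by simpa using hl, ?_, ?_⟩
  · intro y hy
    obtain ⟨z, hz, rfl⟩ := List.mem_map.mp hy
    exact ⟨z, hY z hz, rfl⟩
  · have h2 := congrArg (WithOne.mapMulHom e.toMulHom) hs
    rw [map_list_prod, List.map_map] at h2
    rw [List.map_map]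
    exact h2

lemma growth_iso {S T : Type} [Semigroup S] [Semigroup T] (e : S ≃* T) (Y : Set S) :
    growth (e '' Y) = growth Y := by
  funext n
  have : ball (e '' Y) n = e '' ball Y n := by
    ext t
    constructor
    · intro h
      refine ⟨e.symm t, ?_, e.apply_symm_apply t⟩
      have h2 := ball_iso e.symm (e '' Y) n t h
      have h3 : e.symm '' (e '' Y) = Y := by
        ext y; simp
      rw [h3] at h2
      exact h2
    · rintro ⟨s, hs, rfl⟩
      exact ball_iso e Y n s hs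
  unfold growth
  rw [this, Set.ncard_image_of_injective _ e.injective]

def GS : Set (ℕ → ℕ) :=
  {γ | ∃ (S : Type) (_ : Semigroup S), IsFinPres S ∧ ∃ Y : Set S, Y.Finite ∧ γ = growth Y}

instance (n : ℕ) : Countable (FreeSemigroup (Fin n)) := by
  have : Function.Injective (fun x : FreeSemigroup (Fin n) => (x.head, x.tail)) := by
    rintro ⟨a, b⟩ ⟨c, d⟩ h
    simp only [Prod.mk.injEq] at h
    rw [h.1, h.2]
  exact this.countable

lemma GS_countable : GS.Countable := by
  let D := Σ n : ℕ, (Finset (FreeSemigroup (Fin n) × FreeSemigroup (Fin n))) ×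
    Finset (FreeSemigroup (Fin n))
  let F : D → (ℕ → ℕ) := fun d =>
    growth (S := (conGen (fun u v => (u, v) ∈ d.2.1)).Quotient)
      ((fun w : FreeSemigroup (Fin d.1) => (w : (conGen (fun u v => (u, v) ∈ d.2.1)).Quotient)) ''
        (d.2.2 : Set (FreeSemigroup (Fin d.1))))
  have hsub : GS ⊆ Set.range F := by
    rintro γ ⟨S, _, ⟨n, R, ⟨e⟩⟩, Y, hY, rfl⟩
    have hfin : (e '' Y).Finite := hY.image e
    have hsurj : ∀ q : (conGen (fun u v => (u, v) ∈ R)).Quotient,
        ∃ w : FreeSemigroup (Fin n), (w : (conGen (fun u v => (u, v) ∈ R)).Quotient) = q :=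
      fun q => Quotient.exists_rep q
    choose rep hrep using hsurj
    refine ⟨⟨n, R, (hfin.image rep).toFinset⟩, ?_⟩
    have h1 : ((fun w : FreeSemigroup (Fin n) => (w : (conGen (fun u v => (u, v) ∈ R)).Quotient)) ''
        ((hfin.image rep).toFinset : Set (FreeSemigroup (Fin n)))) = e '' Y := by
      rw [Set.Finite.coe_toFinset, Set.image_image]
      have : (fun x => ((rep x : FreeSemigroup (Fin n)) :
          (conGen (fun u v => (u, v) ∈ R)).Quotient)) = id := by
        funext x; exact hrep x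
      rw [this, Set.image_id]
    change growth _ = growth Y
    rw [← growth_iso e Y]
    exact congrArg growth h1
  exact (Set.countable_range F).mono hsub

end countable

/-! ### Diagonalisation -/

section diag

lemma diag (e : ℕ → ℕ → ℕ) (hmono : ∀ k, Monotone (e k)) (hsub : ∀ k, SubExp (e k)) :
    ∃ f : ℕ → ℕ, StrictMono f ∧ Dom f (fun n => 2 ^ n) ∧ ¬ Dom (fun n => 2 ^ n) f ∧
      ∀ k, ∃ N, ∀ n, N ≤ n → e k n ≤ f n := by
  classical
  let P : ℕ → ℕ → Prop := fun n j => ∀ k < j, ∀ m, n ≤ m → (e k m) ^ j ≤ 2 ^ m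
  let J : ℕ → ℕ := fun n => Nat.findGreatest (P n) n
  have hP0 : ∀ n, P n 0 := fun n k hk => absurd hk (Nat.not_lt_zero k)
  have hPJ : ∀ n, P n (J n) := fun n => Nat.findGreatest_spec (Nat.zero_le n) (hP0 n)
  have hPmono : ∀ n m j, n ≤ m → P n j → P m j := fun n m j h hP k hk m' hm' =>
    hP k hk m' (h.trans hm')
  have hJmono : Monotone J := by
    intro n m h
    apply Nat.le_findGreatest
    · exact (Nat.findGreatest_le n).trans h
    · exact hPmono n m _ h (hPJ n)
  have hJinf : ∀ j, ∃ N, ∀ n, N ≤ n → j ≤ J n := by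
    intro j
    have : ∃ N, P N j := by
      have h1 : ∀ k : ℕ, ∃ N, ∀ m, N ≤ m → (e k m) ^ j ≤ 2 ^ m := fun k => hsub k j
      choose Nk hNk using h1
      refine ⟨(Finset.range j).sup Nk, fun k hk m hm => hNk k m ?_⟩
      exact (Finset.le_sup (f := Nk) (Finset.mem_range.mpr hk)).trans hm
    obtain ⟨N, hN⟩ := this
    refine ⟨max N j, fun n hn => ?_⟩
    apply Nat.le_findGreatest
    · exact (le_max_right _ _).trans hn
    · exact hPmono N n j ((le_max_left _ _).trans hn) hN
  let s : ℕ → ℕ := fun n => (Finset.range (J n)).sup (fun k => e k n)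
  have hsmono : Monotone s := by
    intro n m h
    apply Finset.sup_le
    intro k hk
    have hk' : k < J n := Finset.mem_range.mp hk
    have hk2 : k ∈ Finset.range (J m) := Finset.mem_range.mpr (hk'.trans_le (hJmono h))
    exact (hmono k h).trans (Finset.le_sup (f := fun k => e k m) hk2)
  have hspow : ∀ n, ∀ j, j ≤ J n → 1 ≤ j → (s n) ^ j ≤ 2 ^ n := by
    intro n j hj hj1
    have hne : (Finset.range (J n)).Nonempty := by
      rw [Finset.nonempty_range_iff]; omega
    obtain ⟨k, hk, hk2⟩ := Finset.exists_mem_eq_sup (Finset.range (J n)) hne (fun k => e k n)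
    have hsk : s n = e k n := hk2
    rw [hsk]
    have h1 := hPJ n k (Finset.mem_range.mp hk) n le_rfl
    rcases Nat.eq_zero_or_pos (e k n) with h0 | hpos
    · rw [h0, zero_pow (by omega)]; positivity
    · exact (Nat.pow_le_pow_right hpos hj).trans h1
  have hs2 : ∀ n, s n ≤ 2 ^ n := by
    intro n
    rcases Nat.eq_zero_or_pos (J n) with h0 | hpos
    · have : s n = 0 := by
        change (Finset.range (J n)).sup _ = 0
        rw [h0]; rfl
      rw [this]; positivity
    · have := hspow n 1 hpos le_rfl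
      simpa using this
  refine ⟨fun n => n + s n, ?_, ?_, ?_, ?_⟩
  · intro n m h
    have := hsmono h.le
    change n + s n < m + s m
    omega
  · refine ⟨2, by norm_num, fun n => ?_⟩
    change n + s n ≤ 2 * 2 ^ (2 * n)
    have h1 : n ≤ 2 ^ n := Nat.lt_two_pow_self.le
    have h2 := hs2 n
    have h3 : 2 ^ n ≤ 2 ^ (2 * n) := Nat.pow_le_pow_right (by norm_num) (by omega)
    omega
  · rintro ⟨C, hC, h⟩
    obtain ⟨N, hN⟩ := hJinf (2 * C)
    obtain ⟨N2, hN2⟩ := exp_beats (2 * C ^ 2 + 3)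
    -- choose n
    set n := max N (max N2 (2 * C ^ 2 + 3)) with hn
    have hnN : N ≤ n := le_max_left _ _
    have hnN2 : N2 ≤ n := (le_max_left _ _).trans (le_max_right _ _)
    have hn3 : 2 * C ^ 2 + 3 ≤ n := (le_max_right _ _).trans (le_max_right _ _)
    have hbig := hN2 n hnN2
    have h1 : 2 ^ n ≤ C * (C * n + s (C * n)) := h n
    have hCn : n ≤ C * n := by nlinarith
    have h2 := hspow (C * n) (2 * C) (hN _ (hnN.trans hCn)) (by omega)
    have h3 : (s (C * n)) ^ 2 ≤ 2 ^ n := by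
      have h4 : ((s (C * n)) ^ 2) ^ C ≤ (2 ^ n) ^ C := by
        rw [← pow_mul, ← pow_mul, mul_comm n C]; exact h2
      exact (Nat.pow_le_pow_iff_left (by omega)).mp h4
    set t := s (C * n) with ht
    -- n ^ 3 ≤ 2 ^ n and n ≥ 2 C^2 + 3
    have h5 : n ^ 3 ≤ 2 ^ n := (Nat.pow_le_pow_right (by omega) (by omega)).trans hbig
    have h6 : 2 * (C * (C * n)) < 2 ^ n := by
      have : 2 * (C * (C * n)) < n ^ 3 := by
        have e1 : 2 * (C * (C * n)) = (2 * C ^ 2) * n := by ring
        rw [e1]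
        have : (2 * C ^ 2) * n < n * n := by nlinarith
        nlinarith
      omega
    have h7 : 2 * (C * t) < 2 ^ n := by
      have h8 : (2 * (C * t)) ^ 2 < (2 ^ n) ^ 2 := by
        have e1 : (2 * (C * t)) ^ 2 = (4 * C ^ 2) * t ^ 2 := by ring
        rw [e1, pow_two (2 ^ n)]
        have h9 : 4 * C ^ 2 < 2 ^ n := by
          have : 4 * C ^ 2 < n ^ 3 := by
            have : 4 * C ^ 2 < n * n := by nlinarith
            nlinarith
          omega
        have hpos : 0 < 2 ^ n := by positivity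
        calc (4 * C ^ 2) * t ^ 2 ≤ (4 * C ^ 2) * 2 ^ n := Nat.mul_le_mul_left _ h3
          _ < 2 ^ n * 2 ^ n := Nat.mul_lt_mul_of_pos_right h9 hpos
      exact lt_of_pow_lt_pow_left₀ 2 (Nat.zero_le _) h8
    have h10 : C * (C * n + t) = C * (C * n) + C * t := by ring
    omega
  · intro k
    obtain ⟨N, hN⟩ := hJinf (k + 1)
    refine ⟨N, fun n hn => ?_⟩
    have h1 : k ∈ Finset.range (J n) := Finset.mem_range.mpr (hN n hn)
    have h2 : e k n ≤ s n := Finset.le_sup (f := fun k => e k n) h1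
    change e k n ≤ n + s n
    omega

end diag

/-- There are increasing functions `f₁ ⪰ n ^ 2` and `f₂ ⪯ 2 ^ n`, not equivalent to `n ^ 2` and to
`2 ^ n`, such that the growth function of no finitely presented semigroup, with respect to any
finite generating set, is infinitely often below `f₁` and infinitely often above `f₂`. -/
theorem result : ∃ f₁ f₂ : ℕ → ℕ, StrictMono f₁ ∧ StrictMono f₂ ∧
    Dom (fun n => n ^ 2) f₁ ∧ Dom f₂ (fun n => 2 ^ n) ∧
    ¬ Dom f₁ (fun n => n ^ 2) ∧ ¬ Dom (fun n => 2 ^ n) f₂ ∧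
    ∀ (S : Type) [Semigroup S], IsFinPres S → ∀ Y : Set S, Y.Finite →
      Subsemigroup.closure Y = ⊤ →
      ¬ ((∀ N, ∃ n, N ≤ n ∧ growth Y n < f₁ n) ∧ (∀ N, ∃ n, N ≤ n ∧ f₂ n < growth Y n)) := by
  classical
  let G : Set (ℕ → ℕ) := {γ | γ ∈ insert (fun _ => 0) GS ∧ Monotone γ ∧ SubExp γ}
  have hGc : G.Countable := (GS_countable.insert _).mono (fun γ h => h.1)
  have hGn : G.Nonempty := by
    refine ⟨fun _ => 0, Or.inl rfl, fun _ _ _ => le_rfl, fun K => ⟨0, fun n _ => ?_⟩⟩
    rcases Nat.eq_zero_or_pos K with h | h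
    · subst h; simpa using Nat.one_le_two_pow
    · rw [zero_pow (by omega)]; positivity
  obtain ⟨e, he⟩ := hGc.exists_eq_range hGn
  have hemem : ∀ k, e k ∈ G := fun k => by rw [he]; exact ⟨k, rfl⟩
  obtain ⟨f₂, hf1, hf2, hf3, hf4⟩ := diag e (fun k => (hemem k).2.1) (fun k => (hemem k).2.2)
  refine ⟨fun n => n ^ 3, f₂, ?_, hf1, ?_, hf2, ?_, hf3, ?_⟩
  · intro a b h
    exact Nat.pow_lt_pow_left h (by norm_num)
  · refine ⟨1, le_rfl, fun n => ?_⟩
    rw [one_mul, one_mul]
    rcases Nat.eq_zero_or_pos n with h | h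
    · subst h; simp
    · exact Nat.pow_le_pow_right h (by norm_num)
  · rintro ⟨C, hC, h⟩
    have h1 := h (C ^ 3 + 1)
    have h2 : (C ^ 3 + 1) ^ 3 ≤ C ^ 3 * (C ^ 3 + 1) ^ 2 := by
      refine h1.trans (le_of_eq ?_)
      ring
    have h3 : (C ^ 3 + 1) ^ 3 = C ^ 3 * (C ^ 3 + 1) ^ 2 + (C ^ 3 + 1) ^ 2 := by ring
    have h4 : 0 < (C ^ 3 + 1) ^ 2 := by positivity
    omega
  · intro S _ hS Y hY _ ⟨h1, h2⟩
    have hsub := subexp_of_small Y hY h1
    have hmem : growth Y ∈ G := ⟨Or.inr ⟨S, inferInstance, hS, Y, hY, rfl⟩, growth_mono Y hY, hsub⟩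
    rw [he] at hmem
    obtain ⟨k, hk⟩ := hmem
    obtain ⟨N, hN⟩ := hf4 k
    obtain ⟨n, hn, hlt⟩ := h2 N
    have := hN n hn
    rw [hk] at this
    omega

end Pool.Agent.Results.MP_dd6e79_al.NoOscillation
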